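import Pool.Agent.TH219.DL.CnTet

/-!
# Cones over convex disks: lower bounds for the four extremal packing densities

Every cone `C` over a planar convex body satisfies `δ_L(C) ≥ 1/4` and `δ_{L*}(C) ≥ 1/2`.  Hence
`c_L^min ≥ 1/4`, `c_T^min ≥ 1/4`, `c_{L*}^min ≥ 1/2`, `c_{T*}^min ≥ 1/2`, and, as the tetrahedron is
a cone with `δ_T ≤ 2/5`, `c_L^min ≤ c_T^min ≤ 2/5 < 1/2 ≤ c_{L*}^min ≤ c_{T*}^min`.
-/

namespace Pool.Agent.Results.MP_4ad723_co.ConesHalf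

open Pool.Agent.TH219.DL
open scoped ENNReal

/-- the minimum (infimum) of a density function over all cones -/
noncomputable def cmin (δ : Set (Fin 3 → ℝ) → ℝ≥0∞) : ℝ≥0∞ :=
  ⨅ (C : Set (Fin 3 → ℝ)) (_ : IsCone C), δ C

theorem result :
    (∀ C : Set (Fin 3 → ℝ), IsCone C →
      ENNReal.ofReal (1 / 4) ≤ dL C ∧ dL C ≤ dT C ∧
      ENNReal.ofReal (1 / 2) ≤ dLs C ∧ dLs C ≤ dTs C) ∧
    ENNReal.ofReal (1 / 4) ≤ cmin dL ∧ cmin dL ≤ cmin dT ∧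
    cmin dT ≤ ENNReal.ofReal (2 / 5) ∧
    ENNReal.ofReal (1 / 2) ≤ cmin dLs ∧ cmin dLs ≤ cmin dTs := by
  refine ⟨fun C hC => ⟨Half_dL (cone_compact hC) (cone_half hC), dL_le_dT C,
    Half_dLs (cone_compact hC) (cone_convex hC) (cone_half hC), dLs_le_dTs C⟩, ?_, ?_, ?_, ?_, ?_⟩
  · exact le_iInf₂ fun C hC => Half_dL (cone_compact hC) (cone_half hC)
  · exact iInf₂_mono fun C _ => dL_le_dT C
  · exact (iInf₂_le Pool.Agent.H349R2.Tet.T T_cone).trans dT_T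
  · exact le_iInf₂ fun C hC => Half_dLs (cone_compact hC) (cone_convex hC) (cone_half hC)
  · exact iInf₂_mono fun C _ => dLs_le_dTs C

end Pool.Agent.Results.MP_4ad723_co.ConesHalf
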